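import Pool.Agent.H32.Loc

set_option autoImplicit false

namespace Pool.Agent.Results.MP_04d7a1_pr.PosCrit

open MeasureTheory ProbabilityTheory Set Filter Topology Pool.Agent.H32.Loc
open scoped ENNReal NNReal

noncomputable section

/-- The four directions `±e₁, ±e₂`. -/
def dir : Fin 4 → ℤ × ℤ := ![(1, 0), (-1, 0), (0, 1), (0, -1)]

/-- Data at a site: the number `N_x` of animals and a sequence of marks (length, direction). -/
abbrev Site := ℕ × (ℕ → ℕ × Fin 4)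

/-- Law of the data at one site: `N_x` is Poisson, the marks are i.i.d. with length of law `law`
and an independent uniform direction. -/
def site (law : Measure ℕ) (lam : ℝ≥0) : Measure Site :=
  (poissonMeasure lam).prod (Measure.infinitePi fun _ : ℕ => law.prod (uniformOn univ))

/-- Independent data at all sites of `ℤ²`. -/
def model (law : Measure ℕ) (lam : ℝ≥0) : Measure (ℤ × ℤ → Site) :=
  Measure.infinitePi fun _ => site law lam

/-- The occupied set: the union of the first `N_x` rays `{x, x + e, …, x + L e}` rooted at `x`. -/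
def occ (ω : ℤ × ℤ → Site) : Set (ℤ × ℤ) :=
  {y | ∃ x i, i < (ω x).1 ∧ ∃ j ≤ ((ω x).2 i).1, y = x + j • dir ((ω x).2 i).2}

/-- Connection by a nearest-neighbour path inside `S`. -/
def Conn (S : Set (ℤ × ℤ)) : ℤ × ℤ → ℤ × ℤ → Prop :=
  Relation.ReflTransGen fun u v => u ∈ S ∧ v ∈ S ∧ |u.1 - v.1| + |u.2 - v.2| = 1

/-- The occupied set has an infinite connected component. -/
def Perc (ω : ℤ × ℤ → Site) : Prop := ∃ a ∈ occ ω, {b | Conn (occ ω) a b}.Infinite

/-- The critical intensity `λ_c`. -/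
def lamc (law : Measure ℕ) : ℝ≥0∞ :=
  sInf {l : ℝ≥0∞ | ∃ lam : ℝ≥0, l = lam ∧ 0 < lam ∧ 0 < model law lam {ω | Perc ω}}

def B (z : ℤ × ℤ) (r : ℤ) : Set (ℤ × ℤ) := {u | |u.1 - z.1| ≤ r ∧ |u.2 - z.2| ≤ r}

def box (z : ℤ × ℤ) (r s : ℕ) : Finset (ℤ × ℤ) :=
  Finset.Icc (z.1 - r) (z.1 + r) ×ˢ Finset.Icc (z.2 - s) (z.2 + s)

lemma mem_box {z u : ℤ × ℤ} {r s : ℕ} : u ∈ box z r s ↔ |u.1 - z.1| ≤ r ∧ |u.2 - z.2| ≤ s := by
  simp only [box, Finset.mem_product, Finset.mem_Icc, abs_le]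
  omega

lemma card_box (z : ℤ × ℤ) (r s : ℕ) : (box z r s).card = (2 * r + 1) * (2 * s + 1) := by
  simp only [box, Finset.card_product, Int.card_Icc]
  congr 1 <;> omega

lemma ray {x y : ℤ × ℤ} {j L : ℕ} {e : Fin 4} (hj : j ≤ L) (h : y = x + j • dir e) :
    |y.1 - x.1| ≤ L ∧ |y.2 - x.2| ≤ L ∧ (y.1 = x.1 ∨ y.2 = x.2) := by
  subst h
  fin_cases e <;> simp [dir, hj]

lemma Conn.mono {S T : Set (ℤ × ℤ)} (h : S ⊆ T) {a b : ℤ × ℤ} (hc : Conn S a b) : Conn T a b :=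
  by
  induction hc with
  | refl => exact Relation.ReflTransGen.refl
  | tail _ k ih => exact ih.tail ⟨h k.1, h k.2.1, k.2.2⟩

lemma Conn.symm {S : Set (ℤ × ℤ)} {a b : ℤ × ℤ} (hc : Conn S a b) : Conn S b a := by
  induction hc with
  | refl => exact Relation.ReflTransGen.refl
  | tail _ h ih =>
    exact Relation.ReflTransGen.head ⟨h.2.1, h.1, by rw [abs_sub_comm, abs_sub_comm _ (Prod.snd _), h.2.2]⟩ ih

lemma Conn.mem {S : Set (ℤ × ℤ)} {a b : ℤ × ℤ} (hc : Conn S a b) (h : a ≠ b) : a ∈ S := by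
  rcases Relation.ReflTransGen.cases_head hc with h1 | ⟨c, h1, -⟩
  exacts [absurd h1 h, h1.1]

def Loc (S : Set (ℤ × ℤ)) (z : ℤ × ℤ) (R : ℤ) : Prop :=
  ∃ a b, a ∈ B z R ∧ b ∉ B z (2 * R - 1) ∧ Conn (S ∩ B z (2 * R)) a b

lemma exit {S : Set (ℤ × ℤ)} {z a b : ℤ × ℤ} {r : ℤ} (hc : Conn S a b) (hb : b ∉ B z (r - 1))
    (ha : a ∈ B z r) : ∃ c, c ∉ B z (r - 1) ∧ Conn (S ∩ B z r) a c := by
  induction hc using Relation.ReflTransGen.head_induction_on with
  | refl => exact ⟨b, hb, Relation.ReflTransGen.refl⟩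
  | @head u v h _ ih =>
    by_cases hu : u ∈ B z (r - 1)
    · have hv : v ∈ B z r := by
        have := h.2.2
        simp only [B, mem_ofPred_eq, abs_le] at hu ⊢
        have h1 := abs_le.1 (show |u.1 - v.1| ≤ 1 by linarith [abs_nonneg (u.2 - v.2)])
        have h2 := abs_le.1 (show |u.2 - v.2| ≤ 1 by linarith [abs_nonneg (u.1 - v.1)])
        omega
      obtain ⟨c, h1, h2⟩ := ih hv
      exact ⟨c, h1, Relation.ReflTransGen.head ⟨⟨h.1, ha⟩, ⟨h.2.1, hv⟩, h.2.2⟩ h2⟩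
    · exact ⟨u, hu, Relation.ReflTransGen.refl⟩

lemma loc_of {S : Set (ℤ × ℤ)} {z a b : ℤ × ℤ} {R : ℤ} (hc : Conn S a b) (ha : a ∈ B z R)
    (hb : b ∉ B z (2 * R - 1)) : Loc S z R := by
  obtain ⟨c, h1, h2⟩ := exit hc hb (show a ∈ B z (2 * R) by
    simp only [B, mem_ofPred_eq, abs_le] at ha ⊢
    omega)
  exact ⟨a, c, ha, h1, h2⟩

lemma grid (z a : ℤ × ℤ) {R : ℤ} (hR : 0 < R) (ha : a ∈ B z (20 * R)) :
    ∃ g ∈ box 0 20 20, a ∈ B (z + R • g) R := by
  have key : ∀ t : ℤ, |t| ≤ 20 * R → |t / R - 0| ≤ (20 : ℕ) ∧ |t - R * (t / R)| ≤ R := by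
    intro t ht
    have h1 := Int.emod_nonneg t hR.ne'
    have h2 := Int.emod_lt_of_pos t hR
    have h3 := Int.emod_def t R
    rw [abs_le] at ht
    refine ⟨abs_le.2 ⟨?_, ?_⟩, abs_le.2 ⟨by omega, by omega⟩⟩
    · have := (Int.le_ediv_iff_mul_le hR (a := -20) (b := t)).2 (by linarith)
      omega
    · have := Int.ediv_le_of_le_mul hR (a := t) (b := 20) ht.2
      omega
  refine ⟨((a.1 - z.1) / R, (a.2 - z.2) / R), mem_box.2 ⟨(key _ ha.1).1, (key _ ha.2).1⟩, ?_, ?_⟩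
  · simpa [← sub_sub] using (key _ ha.1).2
  · simpa [← sub_sub] using (key _ ha.2).2

attribute [irreducible] box

def G2 : Finset ((ℤ × ℤ) × ℤ × ℤ) := box 0 20 20 ×ˢ box 0 20 20

lemma G2_card : G2.card = 2825761 := by rw [G2, Finset.card_product, card_box]

lemma G2_mem {g1 g2 : ℤ × ℤ} (h1 : g1 ∈ box 0 20 20) (h2 : g2 ∈ box 0 20 20) : (g1, g2) ∈ G2 :=
  Finset.mem_product.2 ⟨h1, h2⟩

attribute [irreducible] G2

def occT (m : ℕ) (ω : ℤ × ℤ → Site) : Set (ℤ × ℤ) :=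
  {y | ∃ x i, i < (ω x).1 ∧ ((ω x).2 i).1 ≤ m ∧ ∃ j ≤ ((ω x).2 i).1, y = x + j • dir ((ω x).2 i).2}

def Big (A : Set ℕ) (x : ℤ × ℤ) : Set (ℤ × ℤ → Site) := {ω | ∃ i < (ω x).1, ((ω x).2 i).1 ∈ A}

def E (m : ℕ) (z : ℤ × ℤ) : Set (ℤ × ℤ → Site) := {ω | Loc (occT m ω) z m}

lemma E_local {m : ℕ} {z : ℤ × ℤ} (ω ω' : ℤ × ℤ → Site)
    (h : ∀ x ∈ box z (3 * m) (3 * m), ω x = ω' x) (hω : ω ∈ E m z) : ω' ∈ E m z := by
  obtain ⟨a, b, h1, h2, h3⟩ := hω
  refine ⟨a, b, h1, h2, h3.mono ?_⟩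
  rintro y ⟨⟨x, i, k1, k2, j, k3, k4⟩, hy⟩
  have k5 := ray (k3.trans k2) k4
  have := h x (by
    simp only [mem_box, B, mem_ofPred_eq, abs_le] at hy k5 ⊢
    omega)
  rw [this] at k1 k2 k3 k4
  exact ⟨⟨x, i, k1, k2, j, k3, k4⟩, hy⟩

lemma E_meas (m : ℕ) (z : ℤ × ℤ) : MeasurableSet (E m z) := by
  have h1 : ∀ y, MeasurableSet {ω | y ∈ occT m ω} := fun y => by
    have e : {ω | y ∈ occT m ω} = ⋃ x, ⋃ i, {ω : ℤ × ℤ → Site | i < (ω x).1 ∧ ((ω x).2 i).1 ≤ m ∧
        ∃ j ≤ ((ω x).2 i).1, y = x + j • dir ((ω x).2 i).2} := by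
      ext ω
      simp only [occT, mem_ofPred_eq, mem_iUnion]
    rw [e]
    refine MeasurableSet.iUnion fun x => MeasurableSet.iUnion fun i => ?_
    exact (show Measurable fun ω : ℤ × ℤ → Site => ((ω x).1, (ω x).2 i) by fun_prop)
      (MeasurableSet.of_discrete (s := {p : ℕ × ℕ × Fin 4 | i < p.1 ∧ p.2.1 ≤ m ∧
        ∃ j ≤ p.2.1, y = x + j • dir p.2.2}))
  simp only [E, Loc, ofPred_exists]
  refine MeasurableSet.iUnion fun a => MeasurableSet.iUnion fun b => (MeasurableSet.const _).inter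
    ((MeasurableSet.const _).inter (meas_rtg _ (fun u v => ?_) a b))
  exact ((h1 u).inter (MeasurableSet.const _)).inter
    (((h1 v).inter (MeasurableSet.const _)).inter (MeasurableSet.const _))

lemma E_rec {m : ℕ} (hm : 0 < m) (z : ℤ × ℤ) : E (10 * m) z ⊆
    (⋃ x ∈ box z (30 * m) (30 * m), Big (Ioi m) x) ∪
    ⋃ g ∈ G2.filter fun g => Disjoint
      (box (z + (m : ℤ) • g.1) (3 * m) (3 * m)) (box (z + (m : ℤ) • g.2) (3 * m) (3 * m)),
      E m (z + (m : ℤ) • g.1) ∩ E m (z + (m : ℤ) • g.2) := by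
  rintro ω ⟨a, b, h1, h2, h3⟩
  refine or_iff_not_imp_left.2 fun h => ?_
  have hab : a ≠ b := by
    rintro rfl
    simp only [B, mem_ofPred_eq, abs_le] at h1 h2
    omega
  have hb := (h3.symm.mem hab.symm).2
  have h4 : Conn (occT m ω) a b := by
    refine h3.mono ?_
    rintro y ⟨⟨x, i, k1, k2, j, k3, k4⟩, hy⟩
    have k5 := ray (k3.trans k2) k4
    refine ⟨x, i, k1, not_lt.1 fun k6 => h (mem_iUnion₂.2 ⟨x, ?_, i, k1, k6⟩), j, k3, k4⟩
    simp only [mem_box, B, mem_ofPred_eq, abs_le] at hy k5 ⊢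
    omega
  have hm' : (0 : ℤ) < m := by exact_mod_cast hm
  obtain ⟨g1, k1, k2⟩ := grid z a hm' (by
    simp only [B, mem_ofPred_eq, abs_le] at h1 ⊢
    omega)
  obtain ⟨g2, k3, k4⟩ := grid z b hm' (by
    simp only [B, mem_ofPred_eq, abs_le] at hb ⊢
    omega)
  refine mem_iUnion₂.2 ⟨(g1, g2), Finset.mem_filter.2 ⟨G2_mem k1 k3,
    Finset.disjoint_left.2 fun u u1 u2 => ?_⟩, loc_of h4 k2 ?_, loc_of h4.symm k4 ?_⟩
  all_goals
    generalize z + (m : ℤ) • g1 = z1 at *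
    generalize z + (m : ℤ) • g2 = z2 at *
    simp only [mem_box, B, mem_ofPred_eq, abs_le] at *
    omega

variable {law : Measure ℕ} [IsProbabilityMeasure law] {lam : ℝ≥0}

instance : IsProbabilityMeasure (site law lam) := by
  unfold site
  infer_instance

lemma big_le (A : Set ℕ) (x : ℤ × ℤ) : model law lam (Big A x) ≤ lam * law A := by
  set ν : Measure (ℕ → ℕ × Fin 4) := Measure.infinitePi fun _ : ℕ => law.prod (uniformOn univ) with hν
  have h1 : Big A x ⊆ ⋃ n : ℕ, ⋃ i ∈ Finset.range n,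
      (fun ω => ω x) ⁻¹' ({n} ×ˢ ((fun f => f i) ⁻¹' (A ×ˢ univ))) := by
    rintro ω ⟨i, h1, h2⟩
    exact mem_iUnion.2 ⟨_, mem_iUnion₂.2 ⟨i, Finset.mem_range.2 h1, rfl, h2, trivial⟩⟩
  have h2 : ∀ n i : ℕ, model law lam ((fun ω => ω x) ⁻¹' ({n} ×ˢ ((fun f => f i) ⁻¹' (A ×ˢ univ)))) =
      poissonMeasure lam {n} * law A := by
    intro n i
    rw [model, (measurePreserving_eval_infinitePi (fun _ => site law lam) x).measure_preimage
      (MeasurableSet.prod .of_discrete (measurable_pi_apply i .of_discrete)).nullMeasurableSet,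
      site, Measure.prod_prod, (measurePreserving_eval_infinitePi
        (fun _ : ℕ => law.prod (uniformOn (univ : Set (Fin 4)))) i).measure_preimage
        MeasurableSet.of_discrete.nullMeasurableSet, Measure.prod_prod, measure_univ, mul_one]
  refine (measure_mono h1).trans ((measure_iUnion_le _).trans ((ENNReal.tsum_le_tsum fun n =>
    measure_biUnion_finset_le _ _).trans (le_of_eq ?_)))
  simp only [h2, Finset.sum_const, Finset.card_range, nsmul_eq_mul, ← mul_assoc, ENNReal.tsum_mul_right]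
  congr 1
  rw [← ENNReal.ofReal_coe_nnreal, ← (po_mean lam).tsum_eq, ENNReal.ofReal_tsum_of_nonneg
    (fun _ => by positivity) (po_mean lam).summable]
  refine tsum_congr fun n => ?_
  rw [poissonMeasure_singleton, ENNReal.ofReal_mul (by positivity), ENNReal.ofReal_natCast, mul_comm]

lemma bigs_le {A : Set ℕ} {F : Finset (ℤ × ℤ)} {c t : ℝ} (hc : (F.card : ℝ) ≤ c) (ht : 0 ≤ t)
    (hA : law A ≤ ENNReal.ofReal t) :
    model law lam (⋃ x ∈ F, Big A x) ≤ ENNReal.ofReal (c * (lam * t)) := by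
  refine (measure_biUnion_finset_le _ _).trans ((Finset.sum_le_card_nsmul _ _ _ fun x _ =>
    (big_le A x).trans (mul_le_mul_right hA _)).trans ?_)
  rw [nsmul_eq_mul, ← ENNReal.ofReal_coe_nnreal, ← ENNReal.ofReal_natCast,
    ← ENNReal.ofReal_mul (by positivity), ← ENNReal.ofReal_mul (by positivity)]
  exact ENNReal.ofReal_le_ofReal (mul_le_mul_of_nonneg_right hc (by positivity))

lemma E_le (hl : (lam : ℝ) ≤ 1 / 10 ^ 13)
    (ht : ∀ k : ℕ, law (Ioi (10 ^ k)) ≤ ENNReal.ofReal (1 / 100 ^ k / (k + 1))) (k : ℕ) :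
    ∀ z, model law lam (E (10 ^ k) z) ≤ ENNReal.ofReal (1 / 10 ^ 8 / (k + 1)) := by
  induction k with
  | zero =>
    intro z
    refine (measure_mono ?_).trans ((bigs_le (F := box z 2 2) (A := univ) (c := 25) (t := 1)
      (by rw [card_box]; norm_num) zero_le_one (by simp)).trans (ENNReal.ofReal_le_ofReal ?_))
    · rintro ω ⟨a, b, h1, h2, h3⟩
      obtain ⟨⟨x, i, k1, k2, j, k3, k4⟩, -⟩ := h3.mem (by
        rintro rfl
        simp only [B, mem_ofPred_eq, abs_le] at h1 h2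
        omega)
      have k5 := ray (k3.trans k2) k4
      refine mem_iUnion₂.2 ⟨x, ?_, i, k1, trivial⟩
      simp only [mem_box, B, mem_ofPred_eq, abs_le] at h1 k5 ⊢
      omega
    · norm_num at hl ⊢
      linarith
  | succ k ih =>
    intro z
    have hm : 0 < 10 ^ k := by positivity
    have hk : (1 : ℝ) ≤ k + 1 := by linarith [Nat.cast_nonneg (α := ℝ) k]
    have h1 := bigs_le (lam := lam) (F := box z (30 * 10 ^ k) (30 * 10 ^ k)) (c := 61 ^ 2 * 100 ^ k)
      (by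
        rw [card_box, show (100 : ℝ) = 10 * 10 by norm_num, mul_pow]
        have : (1 : ℝ) ≤ 10 ^ k := one_le_pow₀ (by norm_num)
        push_cast
        nlinarith) (by positivity) (ht k)
    rw [pow_succ']
    refine (measure_mono (E_rec hm z)).trans ((measure_union_le _ _).trans ((add_le_add h1
      ((measure_biUnion_finset_le _ _).trans (Finset.sum_le_card_nsmul _ _
        (ENNReal.ofReal (1 / 10 ^ 8 / (k + 1)) * ENNReal.ofReal (1 / 10 ^ 8 / (k + 1)))
        fun g hg => ?_))).trans ?_))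
    · rw [model, indep_local _ (Finset.mem_filter.1 hg).2 (E_meas _ _) (E_meas _ _) E_local E_local]
      exact mul_le_mul' (ih _) (ih _)
    · refine (add_le_add le_rfl (nsmul_le_nsmul_left bot_le (Finset.card_filter_le _ _))).trans ?_
      rw [G2_card, nsmul_eq_mul, ← ENNReal.ofReal_natCast,
        ← ENNReal.ofReal_mul (by positivity), ← ENNReal.ofReal_mul (by positivity),
        ← ENNReal.ofReal_add (by positivity) (by positivity)]
      refine ENNReal.ofReal_le_ofReal ?_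
      have e1 : (61 : ℝ) ^ 2 * 100 ^ k * (lam * (1 / 100 ^ k / (k + 1))) = 3721 * lam * (1 / (k + 1)) := by
        field_simp
        ring
      have h2 : (1 : ℝ) / (k + 1) ≤ 1 := by rwa [div_le_one (by positivity)]
      have h3 : (1 : ℝ) / (k + 1) / 2 ≤ 1 / (k + 1 + 1) := by
        rw [div_div]
        exact one_div_le_one_div_of_le (by positivity) (by linarith)
      have h4 : (0 : ℝ) < 1 / (k + 1) := by positivity
      rw [e1, div_eq_mul_one_div (1 / 10 ^ 8) ((k : ℝ) + 1), div_eq_mul_one_div _ (((k + 1 : ℕ) : ℝ) + 1)]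
      push_cast
      nlinarith [mul_le_mul_of_nonneg_right hl h4.le, mul_le_mul_of_nonneg_right h2 h4.le]

lemma far_sub (a : ℤ × ℤ) (k : ℕ) (ha : a ∈ B 0 (10 ^ k : ℕ)) :
    {ω | {b | Conn (occ ω) a b}.Infinite} ⊆ E (10 ^ k) 0 ∪ ⋃ j : ℕ,
      ⋃ x ∈ box 0 (2 * 10 ^ k) (2 * 10 ^ k + 10 ^ (j + k + 1)) ∪
        box 0 (2 * 10 ^ k + 10 ^ (j + k + 1)) (2 * 10 ^ k), Big (Ioi (10 ^ (j + k))) x := by
  intro ω h
  refine or_iff_not_imp_right.2 fun hn => ?_
  obtain ⟨b, h1, h2⟩ := Set.Infinite.exists_notMem_finset h (box 0 (2 * 10 ^ k) (2 * 10 ^ k))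
  obtain ⟨c, d, k1, k2, k3⟩ := loc_of h1 ha (by
    simp only [mem_box, B, mem_ofPred_eq, abs_le] at h2 ⊢
    omega)
  refine ⟨c, d, k1, k2, k3.mono ?_⟩
  rintro y ⟨⟨x, i, l1, j, l3, l4⟩, hy⟩
  refine ⟨⟨x, i, l1, not_lt.1 fun l5 => hn ?_, j, l3, l4⟩, hy⟩
  have l6 : ∃ s, ((ω x).2 i).1 ≤ 10 ^ (s + k + 1) :=
    ⟨_, (Nat.lt_pow_self (by norm_num)).le.trans (Nat.pow_le_pow_right (by norm_num)
      (show ((ω x).2 i).1 ≤ ((ω x).2 i).1 + k + 1 by omega))⟩
  have l7 := ray (l3.trans (Nat.find_spec l6)) l4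
  refine mem_iUnion.2 ⟨Nat.find l6, mem_iUnion₂.2 ⟨x, ?_, i, l1, ?_⟩⟩
  · simp only [Finset.mem_union, mem_box, B, mem_ofPred_eq, abs_le, Prod.fst_zero, Prod.snd_zero]
      at hy l7 ⊢
    omega
  · rcases h0 : Nat.find l6 with _ | s
    · simpa using l5
    · have := Nat.find_min l6 (show s < Nat.find l6 by omega)
      rw [show s + 1 + k = s + k + 1 by omega]
      exact not_le.1 this

lemma no_perc (hl : (lam : ℝ) ≤ 1 / 10 ^ 13)
    (ht : ∀ k : ℕ, law (Ioi (10 ^ k)) ≤ ENNReal.ofReal (1 / 100 ^ k / (k + 1))) :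
    model law lam {ω | Perc ω} = 0 := by
  refine measure_mono_null (t := ⋃ a, {ω | {b | Conn (occ ω) a b}.Infinite})
    (fun ω ⟨a, _, h⟩ => mem_iUnion.2 ⟨a, h⟩) (measure_iUnion_null fun a => ?_)
  have h0 : Tendsto (fun k : ℕ => ENNReal.ofReal (501 * (1 / ((k : ℝ) + 1)))) atTop (𝓝 0) := by
    simpa using ENNReal.tendsto_ofReal
      ((tendsto_one_div_add_atTop_nhds_zero_nat (𝕜 := ℝ)).const_mul 501)
  refine le_antisymm (ge_of_tendsto h0 ?_) bot_le
  filter_upwards [eventually_ge_atTop (a.1.natAbs + a.2.natAbs)] with k hk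
  have h1 : k < 10 ^ k := Nat.lt_pow_self (by norm_num)
  have hl1 : (lam : ℝ) ≤ 1 := hl.trans (by norm_num)
  have h2 : ∀ j : ℕ, model law lam (⋃ x ∈ box 0 (2 * 10 ^ k) (2 * 10 ^ k + 10 ^ (j + k + 1)) ∪
        box 0 (2 * 10 ^ k + 10 ^ (j + k + 1)) (2 * 10 ^ k), Big (Ioi (10 ^ (j + k))) x) ≤
      ENNReal.ofReal (250 * (1 / (k + 1)) * (1 / 2) ^ j) := by
    intro j
    have a1 : (1 : ℝ) ≤ 10 ^ k := one_le_pow₀ (by norm_num)
    have a2 : (1 : ℝ) ≤ 10 ^ j := one_le_pow₀ (by norm_num)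
    refine (bigs_le (c := 250 * (10 ^ j * 100 ^ k)) ?_ (by positivity) (ht (j + k))).trans
      (ENNReal.ofReal_le_ofReal ?_)
    · refine (Nat.cast_le.2 (Finset.card_union_le _ _)).trans ?_
      rw [card_box, card_box, show (100 : ℝ) = 10 * 10 by norm_num, mul_pow]
      push_cast
      rw [pow_succ, pow_add]
      have a3 : (10 : ℝ) ^ k ≤ 10 ^ j * 10 ^ k := le_mul_of_one_le_left (by positivity) a2
      have := mul_le_mul (show 2 * (2 * (10 : ℝ) ^ k) + 1 ≤ 5 * 10 ^ k by linarith)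
        (show 2 * (2 * (10 : ℝ) ^ k + 10 ^ j * 10 ^ k * 10) + 1 ≤ 25 * (10 ^ j * 10 ^ k) by linarith)
        (by positivity) (by positivity)
      nlinarith
    · have e : (250 : ℝ) * (10 ^ j * 100 ^ k) * (lam * (1 / 100 ^ (j + k) / ((j + k : ℕ) + 1))) =
          250 * (lam * (1 / ((j + k : ℕ) + 1))) * (1 / 10) ^ j := by
        rw [pow_add, show (100 : ℝ) = 10 * 10 by norm_num, mul_pow 10 10 j, one_div_pow]
        field_simp
      rw [e]
      refine mul_le_mul (mul_le_mul_of_nonneg_left ((mul_le_of_le_one_left (by positivity) hl1).trans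
        (one_div_le_one_div_of_le (by positivity) ?_)) (by norm_num))
        (pow_le_pow_left₀ (by norm_num) (by norm_num) j) (by positivity) (by positivity)
      push_cast
      linarith [Nat.cast_nonneg (α := ℝ) j]
  have h3 := hasSum_geometric_two.mul_left (250 * (1 / ((k : ℝ) + 1)))
  refine (measure_mono (far_sub a k ?_)).trans ((measure_union_le _ _).trans ((add_le_add
    (E_le hl ht k 0) ((measure_iUnion_le _).trans (ENNReal.tsum_le_tsum h2))).trans ?_))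
  · simp only [B, mem_ofPred_eq, abs_le, Prod.fst_zero, Prod.snd_zero]
    omega
  · rw [← ENNReal.ofReal_tsum_of_nonneg (fun _ => by positivity) h3.summable, h3.tsum_eq,
      ← ENNReal.ofReal_add (by positivity) (by positivity)]
    refine ENNReal.ofReal_le_ofReal ?_
    rw [div_eq_mul_one_div _ ((k : ℝ) + 1)]
    have : (0 : ℝ) < 1 / (k + 1) := by positivity
    linarith

def tt (k : ℕ) : ℝ := 1 / 100 ^ k / (k + 1)

lemma tt_step (k : ℕ) : tt (k + 1) ≤ tt k / 2 := by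
  unfold tt
  rw [div_div, div_div, div_div, pow_succ]
  refine one_div_le_one_div_of_le (by positivity) ?_
  have : (0 : ℝ) < 100 ^ k := by positivity
  have : (0 : ℝ) ≤ k := by positivity
  push_cast
  nlinarith

lemma tt_pos (k : ℕ) : 0 < tt k := by
  unfold tt
  positivity

lemma tt_sum (k : ℕ) : ∑' j, ENNReal.ofReal (tt (j + k) - tt (j + k + 1)) = ENNReal.ofReal (tt k) := by
  have h0 : ∀ j, 0 ≤ tt (j + k) - tt (j + k + 1) := fun j => by
    linarith [tt_step (j + k), tt_pos (j + k)]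
  have h1 : Tendsto tt atTop (𝓝 0) := squeeze_zero (fun j => (tt_pos j).le) (fun j => by
    unfold tt
    exact div_le_div_of_nonneg_right (div_le_self zero_le_one (one_le_pow₀ (by norm_num)))
      (by positivity)) (tendsto_one_div_add_atTop_nhds_zero_nat (𝕜 := ℝ))
  have h2 : HasSum (fun j => tt (j + k) - tt (j + k + 1)) (tt k) := by
    rw [hasSum_iff_tendsto_nat_of_nonneg h0]
    have := (h1.comp (tendsto_add_atTop_nat k)).const_sub (tt k)
    rw [sub_zero] at this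
    refine this.congr fun n => ?_
    have := Finset.sum_range_sub' (fun j => tt (j + k)) n
    simp only [zero_add, add_right_comm _ 1 k] at this
    exact this.symm
  rw [← ENNReal.ofReal_tsum_of_nonneg h0 h2.summable, h2.tsum_eq]

def law0 : Measure ℕ :=
  Measure.sum fun k => ENNReal.ofReal (tt k - tt (k + 1)) • Measure.dirac (10 ^ k)

instance : IsProbabilityMeasure law0 :=
  ⟨by simpa [law0, show tt 0 = 1 by simp [tt]] using tt_sum 0⟩

lemma law0_tail (k : ℕ) : law0 (Ioi (10 ^ k)) ≤ ENNReal.ofReal (1 / 100 ^ k / (k + 1)) := by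
  rw [law0, Measure.sum_apply _ .of_discrete, ← Summable.sum_add_tsum_nat_add' (k := k) ENNReal.summable,
    Finset.sum_eq_zero, zero_add]
  · refine le_trans (ENNReal.tsum_le_tsum fun j => ?_) (tt_sum k).le
    exact mul_le_of_le_one_right' prob_le_one
  · intro j hj
    have := Nat.pow_le_pow_right (show 0 < 10 by norm_num) (Finset.mem_range.1 hj).le
    simp [indicator, this]

lemma law0_mom : ∫⁻ L, ((L : ℝ≥0∞) + 1) ^ 2 ∂law0 = ⊤ := by
  rw [law0, lintegral_sum_measure]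
  simp only [lintegral_smul_measure, lintegral_dirac, smul_eq_mul]
  by_contra h
  have h1 : ∑' k : ℕ, ENNReal.ofReal (1 / 2 * (1 / ((k : ℝ) + 1))) ≠ ⊤ := by
    refine ne_top_of_le_ne_top h (ENNReal.tsum_le_tsum fun k => ?_)
    have e : 1 / 2 * (1 / ((k : ℝ) + 1)) = tt k / 2 * ((10 ^ k : ℕ) : ℝ) ^ 2 := by
      rw [tt, show (100 : ℝ) = 10 * 10 by norm_num, mul_pow]
      push_cast
      field_simp
    rw [e, ENNReal.ofReal_mul (by linarith [tt_pos k]), ENNReal.ofReal_pow (by positivity),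
      ENNReal.ofReal_natCast]
    exact mul_le_mul' (ENNReal.ofReal_le_ofReal (by linarith [tt_step k]))
      (pow_le_pow_left' le_self_add 2)
  have h2 := ENNReal.summable_toReal h1
  simp only [fun k : ℕ => ENNReal.toReal_ofReal (show 0 ≤ 1 / 2 * (1 / ((k : ℝ) + 1)) by
    positivity)] at h2
  refine Real.not_summable_one_div_natCast ((summable_nat_add_iff 1).1 ?_)
  simpa using h2.mul_left 2

theorem result : ∃ law : Measure ℕ, IsProbabilityMeasure law ∧
    ∫⁻ L, ((L : ℝ≥0∞) + 1) ^ 2 ∂law = ⊤ ∧ 0 < lamc law := by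
  refine ⟨law0, inferInstance, law0_mom, lt_of_lt_of_le (b := ((1 / 10 ^ 13 : ℝ≥0) : ℝ≥0∞))
    (by simp) (le_sInf ?_)⟩
  rintro _ ⟨lam, rfl, -, h⟩
  refine ENNReal.coe_le_coe.2 (not_lt.1 fun h1 => h.ne' (no_perc ?_ law0_tail))
  exact_mod_cast h1.le

end

end Pool.Agent.Results.MP_04d7a1_pr.PosCrit
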